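import Pool.Agent.Helper6.LPB.All

/-!
# For almost all `n` the least `y` for which `x + n y` and `x ^ 2 + n y ^ 2`, `x = n - y`, have no small prime factor is of order `(log n) ^ 2`

Upper bound: first and second moment, over the `n` in a fixed class modulo the product of the small primes, of a sum over `y` of sieve weights divided by the
sieve density of `y`. The primes up to a small power of `n` are treated by the fundamental lemma, with a relative error that is small against every power of the
level; the larger primes up to `n ^ κ` by lower bound sieve weights. The density depends on the quadratic character of `y (y - 4)`; for most `y` the character sum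
is bounded (large sieve). Lower bound: first moment, by the mean value over `y` of the density.
-/

namespace Pool.Agent.Results.MP_5e9b96_nt.AlmostAllLogSquared

open Finset

/-- With `x = n - y`, every prime factor of `x + n y` and every prime factor of `x ^ 2 + n y ^ 2` is at least `n ^ κ`. -/
def Rough (κ : ℝ) (n y : ℕ) : Prop :=
  ∀ q : ℕ, q.Prime → q ∣ (n - y) + n * y ∨ q ∣ (n - y) ^ 2 + n * y ^ 2 → (n : ℝ) ^ κ ≤ q

/-- The least rough `y`, `1 ≤ y < n`, exists, is at most `C (log n) ^ 2` and larger than `c (log n) ^ 2`. -/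
def OrderLogSq (c C κ : ℝ) (n : ℕ) : Prop :=
  (∃ y : ℕ, 1 ≤ y ∧ y < n ∧ (y : ℝ) ≤ C * Real.log n ^ 2 ∧ Rough κ n y) ∧
  ∀ y : ℕ, 1 ≤ y → y < n → (y : ℝ) ≤ c * Real.log n ^ 2 → ¬ Rough κ n y

open Classical in
/-- There is `κ₀ > 0` such that for all `0 < κ ≤ κ₀` and `ε > 0` there are `c, C > 0` such that for all large `N` all but at most
`ε N` of the integers `1 ≤ n ≤ N` are `OrderLogSq c C κ`. -/
theorem result : ∃ κ₀ : ℝ, 0 < κ₀ ∧ ∀ κ : ℝ, 0 < κ → κ ≤ κ₀ → ∀ ε : ℝ, 0 < ε → ∃ c C : ℝ, 0 < c ∧ 0 < C ∧
    ∃ N₀ : ℕ, ∀ N : ℕ, N₀ ≤ N → (((Icc 1 N).filter (fun n => ¬ OrderLogSq c C κ n)).card : ℝ) ≤ ε * N :=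
  Pool.Agent.Helper6.LPB.fin

end Pool.Agent.Results.MP_5e9b96_nt.AlmostAllLogSquared
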