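import Pool.Agent.Helper9.TW.All

/-!
# Sun's problem for every large `n`: `x + y = n`, `x + n y` a product of at most two primes, `x ^ 2 + n y ^ 2` almost prime

With `a = n - 1`, `b = y + 1` one has `x + n y = a b + 1` and `x ^ 2 + n y ^ 2 = (a + 2 - b) ^ 2 + (a + 1) (b - 1) ^ 2`.
The numbers `a b + 1`, `b ≍ a`, have level of distribution `a ^ (9 / 8)` with respect to well factorable weights
(Kloosterman sums modulo `a d`), uniformly in the progression of `b` modulo small `d`. The weights of the linear
sieve are built recursively from boxes of primes; Richert's weights and the vector sieve (fundamental lemma for the primes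
below a small power of `a` and both polynomials) give the result.
-/

namespace Pool.Agent.Results.MP_5e9b96_nt.AlmostPrimePairs

open Finset

/-- the integers `y`, `0 < y < n`, such that with `x = n - y` the number `x + n y` has at most two prime factors and
`x ^ 2 + n y ^ 2` at most `R`, counted with multiplicity -/
def ys (R n : ℕ) : Finset ℕ :=
  (Ioo 0 n).filter (fun y => ArithmeticFunction.cardFactors ((n - y) + n * y) ≤ 2 ∧
    ArithmeticFunction.cardFactors ((n - y) ^ 2 + n * y ^ 2) ≤ R)

/-- There are `R` and `N₀` such that for every `n ≥ N₀` the set `ys R n` has at least `n / (log n) ^ 4` elements. -/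
theorem result : ∃ R N₀ : ℕ, ∀ n : ℕ, N₀ ≤ n → (n : ℝ) / Real.log n ^ 4 ≤ ((ys R n).card : ℝ) :=
  Pool.Agent.Helper9.TW.pFIN

end Pool.Agent.Results.MP_5e9b96_nt.AlmostPrimePairs
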