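import Pool.Agent.Helper60.LZ.All

/-!
# For infinitely many `n` every admissible pair has `y > c (log n) ^ 2 log log n`

For `n ≡ - 4 (mod l)` the numbers `x + n y` and `x ^ 2 + n y ^ 2`, `x = n - y`, are `- (5 y + 4)` and `(4 - y)(3 y + 4)` modulo `l`: every
prime `l ≥ 7` takes three classes of `y`.  Among the `n ≡ - 4` modulo all primes `7 ≤ l ≤ x / 2` the surviving `y` are treated by the first
moment, with a two dimensional upper bound sieve for each `y` and the large sieve for the quadratic characters of `y (y - 4)`.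
-/

namespace Pool.Agent.Results.MP_5e9b96_nt.LeastYLogSquared

/-- There is `c > 0` such that for infinitely many `n` all `1 ≤ y ≤ c (log n) ^ 2 log log n` satisfy `y < n` and the numbers
`x + n y` and `x ^ 2 + n y ^ 2`, `x = n - y`, are not both prime. -/
theorem result : ∃ c : ℝ, 0 < c ∧ ∀ n₀ : ℕ, ∃ n : ℕ, n₀ ≤ n ∧ ∀ y : ℕ, 1 ≤ y →
    (y : ℝ) ≤ c * (Real.log n ^ 2 * Real.log (Real.log n)) →
      y < n ∧ ¬ (((n - y) + n * y).Prime ∧ ((n - y) ^ 2 + n * y ^ 2).Prime) :=
  Pool.Agent.Helper60.LZ.pFNZ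

end Pool.Agent.Results.MP_5e9b96_nt.LeastYLogSquared
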