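import Pool.Agent.Helper9.SU.All

/-!
# Sun's problem: `x + y = n`, `x + n y` prime and `x ^ 2 + n y ^ 2` almost prime, for a positive proportion of `n`

With `a = n - 1`, `b = y + 1` one has `x + n y = a b + 1` and `x ^ 2 + n y ^ 2 = (a + 2 - b) ^ 2 + (a + 1) (b - 1) ^ 2`.
First moment: the primes `a b + 1` with `b` in a dyadic block and the second number free of small primes are
counted by the Bombieri-Vinogradov theorem and the fundamental lemma of the sieve. Second moment:
an upper bound sieve for the triples `(a, b, b')`. The Cauchy-Schwarz inequality gives the result.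
-/

namespace Pool.Agent.Results.MP_5e9b96_nt.PositiveProportion

open Finset

/-- the integers `y`, `0 < y < n`, such that with `x = n - y` the number `x + n y` is prime and `x ^ 2 + n y ^ 2` has at
most `R` prime factors, counted with multiplicity -/
def ys (R n : ℕ) : Finset ℕ :=
  (Ioo 0 n).filter (fun y => ((n - y) + n * y).Prime ∧
    ArithmeticFunction.cardFactors ((n - y) ^ 2 + n * y ^ 2) ≤ R)

/-- For every real `0 < θ < 1` there are `c > 0` and `R`, `N₀` such that for every `N ≥ N₀` at least `c N` of the
integers `1 ≤ n ≤ N` have at least `n ^ θ` values of `y` in `ys R n`. -/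
theorem result : ∀ θ : ℝ, 0 < θ → θ < 1 → ∃ c : ℝ, 0 < c ∧ ∃ R N₀ : ℕ, ∀ N : ℕ, N₀ ≤ N →
    c * N ≤ (((Icc 1 N).filter (fun n : ℕ => (n : ℝ) ^ θ ≤ ((ys R n).card : ℝ))).card : ℝ) :=
  Pool.Agent.Helper9.SU.pFin

end Pool.Agent.Results.MP_5e9b96_nt.PositiveProportion
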